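import Pool.Agent.H10.CE.Targets

open Finset Matrix Pool.Agent.H10.CE

namespace Pool.Agent.H50.CE

/-- Choice of the power of two. -/
theorem exists_pow (x : ℝ) (hx : 1 ≤ x) : ∃ r : ℕ, x ≤ (2 : ℝ) ^ r ∧ (2 : ℝ) ^ r ≤ 2 * x := by
  classical
  have hex : ∃ r : ℕ, x ≤ (2 : ℝ) ^ r := by
    obtain ⟨n, hn⟩ := pow_unbounded_of_one_lt x (by norm_num : (1 : ℝ) < 2)
    exact ⟨n, hn.le⟩
  refine ⟨Nat.find hex, Nat.find_spec hex, ?_⟩
  rcases Nat.eq_zero_or_pos (Nat.find hex) with h0 | h0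
  · rw [h0, pow_zero]; linarith
  · obtain ⟨m, hm⟩ := Nat.exists_eq_succ_of_ne_zero h0.ne'
    have h1 := Nat.find_min hex (m := m) (by omega)
    rw [hm, Nat.succ_eq_add_one, pow_succ]
    push Not at h1
    linarith

/-- The first term. -/
theorem first_term (ε J P S M Y π L s k : ℝ) (n : ℕ) (hn : k = n) (hε : 0 < ε) (hJ : 1 ≤ J)
    (hP : 1 ≤ P) (hS : 1 ≤ S) (hM : 0 ≤ M) (hMP : M ≤ P ^ 3) (hY : 0 ≤ Y)
    (hL : L = Real.log P) (hs : s = Real.log S) (hLpos : 1 ≤ L) (hs1 : 1 ≤ s)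
    (hπ : P / (2 * L) ≤ π) (hk0 : 0 < k) (hk1 : 400 * L / s ≤ k) (hk2 : k ≤ 800 * L)
    (hCL : Real.log (7864320000 / ε ^ 2) + 3 * Real.log L ≤ 7 * s / 8)
    (hP1 : 180000 * J / ε ^ 2 ≤ P) :
    J * ((300 * M / ε) ^ 2 * (Y * (M / S) *
      (128 * (12 * k ^ 2 * P) / ((ε / 2) ^ 2 * (π * S))) ^ n)) ≤ Y / (2 * P ^ 20) := by
  have hP0 : 0 < P := by linarith
  have hS0 : 0 < S := by linarith
  have hL0 : 0 < L := by linarith
  have hs0 : 0 < s := by linarith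
  have hπ0 : 0 < π := lt_of_lt_of_le (by positivity) hπ
  set X := 128 * (12 * k ^ 2 * P) / ((ε / 2) ^ 2 * (π * S)) with hX
  have hX0 : 0 ≤ X := by positivity
  have hXle : X ≤ 7864320000 / ε ^ 2 * L ^ 3 / S := by
    have h1 : X ≤ 128 * (12 * (800 * L) ^ 2 * P) / ((ε / 2) ^ 2 * (P / (2 * L) * S)) := by
      rw [hX]
      apply div_le_div₀
      · positivity
      · have : k ^ 2 ≤ (800 * L) ^ 2 := pow_le_pow_left₀ hk0.le hk2 2
        have := mul_le_mul_of_nonneg_right this hP0.le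
        nlinarith
      · positivity
      · have := mul_le_mul_of_nonneg_right hπ hS0.le
        have h2 : 0 ≤ (ε / 2) ^ 2 := by positivity
        exact mul_le_mul_of_nonneg_left this h2
    refine h1.trans (le_of_eq ?_)
    field_simp
    ring
  have hXe : X ≤ Real.exp (-(s / 8)) := by
    refine hXle.trans ?_
    have hC0 : 0 < 7864320000 / ε ^ 2 := by positivity
    have h1 : 7864320000 / ε ^ 2 * L ^ 3 / S = Real.exp (Real.log (7864320000 / ε ^ 2) +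
        3 * Real.log L - s) := by
      rw [Real.exp_sub, Real.exp_add, Real.exp_log hC0, hs, Real.exp_log hS0]
      congr 2
      have : (3 : ℝ) * Real.log L = ((3 : ℕ) : ℝ) * Real.log L := by norm_num
      rw [this, Real.exp_nat_mul, Real.exp_log hL0]
    rw [h1]
    apply Real.exp_le_exp.2
    linarith
  have hXn : X ^ n ≤ (P ^ 50)⁻¹ := by
    have h1 : X ^ n ≤ Real.exp (-(s / 8)) ^ n := pow_le_pow_left₀ hX0 hXe n
    refine h1.trans ?_
    rw [← Real.exp_nat_mul, ← hn]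
    have h2 : (P ^ 50)⁻¹ = Real.exp (-(50 * L)) := by
      rw [Real.exp_neg]
      congr 1
      have : (50 : ℝ) * L = ((50 : ℕ) : ℝ) * Real.log P := by rw [hL]; norm_num
      rw [this, Real.exp_nat_mul, Real.exp_log hP0]
    rw [h2]
    apply Real.exp_le_exp.2
    have h3 : 400 * L ≤ k * s := by
      rw [div_le_iff₀ hs0] at hk1
      exact hk1
    nlinarith
  have hM9 : M ^ 3 ≤ P ^ 9 := by
    have := pow_le_pow_left₀ hM hMP 3
    calc M ^ 3 ≤ (P ^ 3) ^ 3 := this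
      _ = P ^ 9 := by ring
  have hMS : M / S ≤ M := div_le_self hM hS
  have hMS0 : 0 ≤ M / S := by positivity
  have e1 : J * ((300 * M / ε) ^ 2 * (Y * (M / S) * X ^ n)) ≤
      J * ((300 * M / ε) ^ 2 * (Y * M * (P ^ 50)⁻¹)) := by
    gcongr
  refine e1.trans ?_
  have e2 : J * ((300 * M / ε) ^ 2 * (Y * M * (P ^ 50)⁻¹)) =
      (90000 * J / ε ^ 2) * (M ^ 3) * Y * (P ^ 50)⁻¹ := by
    field_simp
    ring
  rw [e2]
  have e3 : (90000 * J / ε ^ 2) ≤ P / 2 := by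
    have : 180000 * J / ε ^ 2 = 2 * (90000 * J / ε ^ 2) := by ring
    linarith
  have e4 : (90000 * J / ε ^ 2) * (M ^ 3) * Y * (P ^ 50)⁻¹ ≤
      (P / 2) * (P ^ 9) * Y * (P ^ 50)⁻¹ := by
    gcongr
  refine e4.trans ?_
  have e5 : (P / 2) * (P ^ 9) * Y * (P ^ 50)⁻¹ = Y / (2 * P ^ 20) * (P ^ 20)⁻¹ := by
    field_simp
  rw [e5]
  have e6 : (P ^ 20)⁻¹ ≤ 1 := inv_le_one_of_one_le₀ (one_le_pow₀ hP)
  have e7 : 0 ≤ Y / (2 * P ^ 20) := by positivity
  calc Y / (2 * P ^ 20) * (P ^ 20)⁻¹ ≤ Y / (2 * P ^ 20) * 1 :=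
        mul_le_mul_of_nonneg_left e6 e7
    _ = Y / (2 * P ^ 20) := mul_one _

/-- The second term. -/
theorem second_term (ε J P M Y L s : ℝ) (n : ℕ) (hε : 0 < ε) (hε1 : ε ≤ 1) (hJ : 1 ≤ J)
    (hP : 2 ≤ P) (hM : 0 ≤ M) (hMP : M ≤ P ^ 3) (hY : 0 < Y)
    (hL : L = Real.log P) (hLpos : 1 ≤ L) (hs1 : 1 ≤ s) (hsL : s ≤ L)
    (hk2 : (n : ℝ) ≤ 800 * L / s) (hYL : 100000 * L ^ 2 ≤ s * Real.log Y)
    (hP1 : 180000 * J / ε ^ 2 ≤ P) (hP2 : 24 / ε ≤ P) :
    J * ((300 * M / ε) ^ 2 * ((M * (2 * P) ^ 2 * (3 / (ε / 2))) ^ (2 * n))) ≤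
      Y / (2 * P ^ 20) := by
  have hP0 : 0 < P := by linarith
  have hs0 : 0 < s := by linarith
  have hL0 : 0 < L := by linarith
  have a1 : M * (2 * P) ^ 2 * (3 / (ε / 2)) ≤ P ^ 6 := by
    have h0 : M * (2 * P) ^ 2 * (3 / (ε / 2)) = (24 / ε) * (M * P ^ 2) := by
      field_simp
      ring
    rw [h0]
    calc (24 / ε) * (M * P ^ 2) ≤ P * (P ^ 3 * P ^ 2) := by gcongr
      _ = P ^ 6 := by ring
  have a2 : (M * (2 * P) ^ 2 * (3 / (ε / 2))) ^ (2 * n) ≤ P ^ (12 * n) := by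
    have := pow_le_pow_left₀ (by positivity) a1 (2 * n)
    refine this.trans (le_of_eq ?_)
    rw [← pow_mul]
    congr 1
    ring
  have a3 : J * (300 * M / ε) ^ 2 ≤ P ^ 7 := by
    have h0 : J * (300 * M / ε) ^ 2 = (90000 * J / ε ^ 2) * M ^ 2 := by
      field_simp
      ring
    rw [h0]
    have h1 : M ^ 2 ≤ P ^ 6 := by
      have := pow_le_pow_left₀ hM hMP 2
      calc M ^ 2 ≤ (P ^ 3) ^ 2 := this
        _ = P ^ 6 := by ring
    have h2 : 90000 * J / ε ^ 2 ≤ P := by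
      have : 180000 * J / ε ^ 2 = 2 * (90000 * J / ε ^ 2) := by ring
      have h3 : 0 ≤ 90000 * J / ε ^ 2 := by positivity
      linarith
    calc (90000 * J / ε ^ 2) * M ^ 2 ≤ P * P ^ 6 := by gcongr
      _ = P ^ 7 := by ring
  have a4 : J * ((300 * M / ε) ^ 2 * ((M * (2 * P) ^ 2 * (3 / (ε / 2))) ^ (2 * n))) ≤
      P ^ (12 * n + 7) := by
    rw [← mul_assoc]
    calc J * (300 * M / ε) ^ 2 * ((M * (2 * P) ^ 2 * (3 / (ε / 2))) ^ (2 * n))
        ≤ P ^ 7 * P ^ (12 * n) := by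
          apply mul_le_mul a3 a2 (by positivity) (by positivity)
      _ = P ^ (12 * n + 7) := by rw [← pow_add]; congr 1; ring
  refine a4.trans ?_
  rw [le_div_iff₀ (by positivity)]
  have a5 : P ^ (12 * n + 7) * (2 * P ^ 20) ≤ P ^ (12 * n + 28) := by
    have : P ^ (12 * n + 28) = P ^ (12 * n + 7) * (P * P ^ 20) := by
      rw [← pow_succ', ← pow_add]
    rw [this]
    gcongr
  refine a5.trans ?_
  have a6 : P ^ (12 * n + 28) = Real.exp (((12 * n + 28 : ℕ) : ℝ) * L) := by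
    rw [hL, Real.exp_nat_mul, Real.exp_log hP0]
  rw [a6]
  have a7 : Y = Real.exp (Real.log Y) := (Real.exp_log hY).symm
  rw [a7]
  apply Real.exp_le_exp.2
  have a8 : (n : ℝ) * s ≤ 800 * L := by
    rw [le_div_iff₀ hs0] at hk2
    exact hk2
  -- multiply by s
  have a9 : ((12 * n + 28 : ℕ) : ℝ) * L * s ≤ Real.log Y * s := by
    push_cast
    have b1 : (12 * (n : ℝ) + 28) * L * s = 12 * ((n : ℝ) * s) * L + 28 * s * L := by ring
    rw [b1]
    have b2 : 12 * ((n : ℝ) * s) * L ≤ 12 * (800 * L) * L := by gcongr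
    have b3 : 28 * s * L ≤ 28 * L * L := by gcongr
    nlinarith
  exact le_of_mul_le_mul_right a9 hs0

/-- Row PAR. -/
theorem pf_PAR : T_PAR := by
  intro ε J hε hε1 hJ
  set C : ℝ := 7864320000 / ε ^ 2 with hC
  have hC0 : 0 < C := by positivity
  have hC1 : 1 ≤ C := by
    rw [hC, le_div_iff₀ (by positivity)]
    have : ε ^ 2 ≤ 1 := pow_le_one₀ hε.le hε1
    linarith
  have hJ1 : (1 : ℝ) ≤ J := by exact_mod_cast hJ
  set A : ℝ := 15360000 + C ^ 2 + 180000 * J / ε ^ 2 + 24 / ε with hA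
  have hA1 : 0 ≤ 180000 * (J : ℝ) / ε ^ 2 := by positivity
  have hA2 : 0 ≤ 24 / ε := by positivity
  have hA3 : 0 ≤ C ^ 2 := by positivity
  refine ⟨⌈Real.exp A⌉₊, ?_⟩
  intro P S M Y π hP hLS hSP hPM hMP hYL hπ
  have hPe : Real.exp A ≤ P := (Nat.le_ceil _).trans (by exact_mod_cast hP)
  have hP0 : (0 : ℝ) < P := lt_of_lt_of_le (Real.exp_pos A) hPe
  set L := Real.log P with hL
  have hLA : A ≤ L := by
    rw [hL, Real.le_log_iff_exp_le hP0]
    exact hPe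
  have hPA : A ≤ P := by
    have := Real.add_one_le_exp A
    linarith
  have hL1 : 15360000 ≤ L := by linarith
  have hL0 : 0 < L := by linarith
  have hLC : C ^ 2 ≤ L := by linarith
  have hS0 : (0 : ℝ) < S := lt_of_lt_of_le (by positivity) hLS
  set s := Real.log S with hs
  have hlogL : 1 ≤ Real.log L := by
    rw [Real.le_log_iff_exp_le hL0]
    have := Real.exp_one_lt_d9
    linarith
  have hs4 : 4 * Real.log L ≤ s := by
    have : Real.log (L ^ 4) ≤ Real.log S := Real.log_le_log (by positivity) hLS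
    rw [Real.log_pow] at this
    exact_mod_cast this
  have hs1 : 1 ≤ s := by linarith
  have hs0 : 0 < s := by linarith
  have hsL : s ≤ L := Real.log_le_log hS0 (by exact_mod_cast hSP)
  have hLs : 1 ≤ L / s := by rw [le_div_iff₀ hs0]; linarith
  obtain ⟨r, hr1, hr2⟩ := exists_pow (400 * L / s) (by
    have : 400 * L / s = 400 * (L / s) := by ring
    linarith)
  have hk2 : (2 : ℝ) ^ r ≤ 800 * L / s := by
    refine hr2.trans (le_of_eq ?_)
    ring
  have hk3 : (2 : ℝ) ^ r ≤ 800 * L := by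
    refine hk2.trans ?_
    exact div_le_self (by positivity) hs1
  have hk0 : (0 : ℝ) < 2 ^ r := by positivity
  have hP2 : (2 : ℝ) ≤ P := by linarith
  have hP1 : (1 : ℝ) ≤ P := by linarith
  have hS1 : (1 : ℝ) ≤ S := by
    have : (1 : ℝ) ≤ L ^ 4 := one_le_pow₀ (by linarith)
    linarith
  refine ⟨r, ?_, ?_⟩
  · have h1 : P / (2 * L) * S ≤ π * S := mul_le_mul_of_nonneg_right hπ hS0.le
    refine le_trans ?_ h1
    have h2 : ((2 : ℝ) ^ r) ^ 2 ≤ (800 * L) ^ 2 := pow_le_pow_left₀ hk0.le hk3 2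
    have h3 : (P : ℝ) / (2 * L) * S = P * (S / (2 * L)) := by ring
    rw [h3]
    have h4 : 12 * (800 * L) ^ 2 ≤ S / (2 * L) := by
      rw [le_div_iff₀ (by positivity)]
      calc 12 * (800 * L) ^ 2 * (2 * L) = 15360000 * L ^ 3 := by ring
        _ ≤ L * L ^ 3 := by gcongr
        _ = L ^ 4 := by ring
        _ ≤ S := hLS
    calc 12 * ((2 : ℝ) ^ r) ^ 2 * P ≤ 12 * (800 * L) ^ 2 * P := by gcongr
      _ ≤ S / (2 * L) * P := by gcongr
      _ = P * (S / (2 * L)) := by ring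
  · have hM0 : (0 : ℝ) ≤ M := by positivity
    have hMP' : (M : ℝ) ≤ (P : ℝ) ^ 3 := by exact_mod_cast hMP
    have hYL' : 100000 * L ^ 2 ≤ s * Real.log Y := by
      have := hYL
      rw [le_div_iff₀ (by norm_num)] at this
      linarith
    have hY0 : (0 : ℝ) < Y := by
      rcases Nat.eq_zero_or_pos Y with h | h
      · rw [h] at hYL'
        simp at hYL'
        have : 0 < L ^ 2 := by positivity
        linarith
      · exact_mod_cast h
    have hn : (2 : ℝ) ^ r = ((2 ^ r : ℕ) : ℝ) := by push_cast; rfl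
    have hCL : Real.log (7864320000 / ε ^ 2) + 3 * Real.log L ≤ 7 * s / 8 := by
      have h1 : Real.log (C ^ 2) ≤ Real.log L := Real.log_le_log (by positivity) hLC
      rw [Real.log_pow] at h1
      push_cast at h1
      rw [← hC]
      linarith
    have t1 := first_term ε J P S M Y π L s ((2 : ℝ) ^ r) (2 ^ r) hn hε hJ1 hP1 hS1 hM0 hMP'
      hY0.le rfl rfl (by linarith) hs1 hπ hk0 hr1 hk3 hCL (by linarith)
    have t2 := second_term ε J P M Y L s (2 ^ r) hε hε1 hJ1 hP2 hM0 hMP' hY0 rfl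
      (by linarith) hs1 hsL (by rw [← hn]; exact hk2) hYL' (by linarith) (by linarith)
    have e : (J : ℝ) * ((300 * M / ε) ^ 2 * ((Y : ℝ) * (M / S) *
        (128 * (12 * ((2 : ℝ) ^ r) ^ 2 * P) / ((ε / 2) ^ 2 * (π * S))) ^ (2 ^ r) +
        ((M : ℝ) * (2 * P) ^ 2 * (3 / (ε / 2))) ^ (2 * 2 ^ r))) =
        J * ((300 * M / ε) ^ 2 * ((Y : ℝ) * (M / S) *
        (128 * (12 * ((2 : ℝ) ^ r) ^ 2 * P) / ((ε / 2) ^ 2 * (π * S))) ^ (2 ^ r))) +
        J * ((300 * M / ε) ^ 2 * (((M : ℝ) * (2 * P) ^ 2 * (3 / (ε / 2))) ^ (2 * 2 ^ r))) := by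
      ring
    rw [e]
    have e2 : (Y : ℝ) / P ^ 20 = Y / (2 * P ^ 20) + Y / (2 * P ^ 20) := by
      field_simp
      ring
    rw [e2]
    exact add_le_add t1 t2

end Pool.Agent.H50.CE
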